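import Pool.Agent.W738.HS.Fin

/-!
# MP_dc9318_an, Q1: Hilbert-Schmidt Hankel operators on bounded Reinhardt domains

The definitions `IsReinhardt`, `A2`, `ConjMul`, `IsHSCompression`, `CompressionIsZero`,
`HankelIsHilbertSchmidt`, `HankelIsZero` are in `Pool/Agent/W738/HS/Stmt.lean`; `A2_eq_bergman` and
`isClosed_bergman` (in the same folder) show that the Bergman space is what it should be: the closed
subspace of all classes with a holomorphic representative.

Idea of the proof. Suppose that the component `a z^β`, `β ≠ 0`, of the symbol is nonzero. Decompose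
`T z^α` under the action of the torus. If `c_α` is the squared norm of `z^α`, then along each line
`α + ℤ β` of exponents the sum of the `‖T e‖²` over the normalised monomials `e` of `A²(Ω)` is bounded
below by a telescoping sum of the ratios `c_{γ + β} / c_γ`, whose value is `|a|²` times
`ess sup |z^β|² - ess inf |z^β|²`, or `|a|² ess sup |z^β|²` if the line has a first element. As `Ω` is
bounded and `n ≥ 2`, infinitely many lines contain two consecutive exponents of monomials of the
Bergman space, so that the total sum diverges.
-/

set_option autoImplicit false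

open MeasureTheory

namespace Pool.Agent.Results.MP_dc9318_an.NoHilbertSchmidt

open Pool.Agent.W738.HS

/-- Let `n ≥ 2`, let `Ω` be a bounded Reinhardt domain in `ℂⁿ` (connected and open, no completeness
or pseudoconvexity assumed) and let `f` be holomorphic on `Ω`. If the Hankel operator `H_{f̄}` is
Hilbert-Schmidt on `A²(Ω)`, that is, its domain is dense in `A²(Ω)` and it extends to a
Hilbert-Schmidt operator `A²(Ω) → L²(Ω)`, then `H_{f̄} = 0` (and `f` is constant). -/
theorem result (n : ℕ) (hn : 2 ≤ n) (Ω : Set (Fin n → ℂ)) (hΩ : IsOpen Ω) (hc : IsConnected Ω)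
    (hb : Bornology.IsBounded Ω) (hR : IsReinhardt Ω) (f : (Fin n → ℂ) → ℂ)
    (hf : DifferentiableOn ℂ f Ω) (h : HankelIsHilbertSchmidt Ω f) :
    HankelIsZero Ω f ∧ ∃ c : ℂ, ∀ z ∈ Ω, f z = c :=
  main' hn Ω hΩ hc hb hR f hf h

end Pool.Agent.Results.MP_dc9318_an.NoHilbertSchmidt
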